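import Pool.Agent.V8H2.MG.Run
import Pool.Agent.V8H2.MG.Poly

/-!
The data for the primes `p` with `α² p² + β²` free of small prime factors, for finitely many pairs `(α, β)`.
-/

set_option autoImplicit false

namespace Pool.Agent.V8H34.LF

open Finset Filter Polynomial
open Pool.Agent.V8H2.MG
open Pool.Agent.Y677.RSZ (rt Sys rhoT poly_all)

theorem quad_roots (c k : ℤ) (p : ℕ) (hp : p.Prime) (hc : ¬ (p : ℤ) ∣ c) :
    ((range p).filter (fun r : ℕ => (p : ℤ) ∣ c * (r : ℤ) ^ 2 + k)).card ≤ 2 := by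
  classical
  rcases ((range p).filter (fun r : ℕ => (p : ℤ) ∣ c * (r : ℤ) ^ 2 + k)).eq_empty_or_nonempty with h | ⟨s, hs⟩
  · rw [h]
    simp
  rw [mem_filter, mem_range] at hs
  have hpp := Nat.prime_iff_prime_int.1 hp
  refine (card_le_card (t := {s, (p - s) % p}) ?_).trans card_le_two
  intro r hr
  rw [mem_filter, mem_range] at hr
  rw [mem_insert, mem_singleton]
  have h0 : (p : ℤ) ∣ c * (((r : ℤ) - s) * (r + s)) := by
    have e : c * (((r : ℤ) - s) * (r + s)) = (c * (r : ℤ) ^ 2 + k) - (c * (s : ℤ) ^ 2 + k) := by ring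
    rw [e]
    exact dvd_sub hr.2 hs.2
  have h1 : (p : ℤ) ∣ ((r : ℤ) - s) * (r + s) := (hpp.dvd_mul.1 h0).resolve_left hc
  rcases hpp.dvd_mul.1 h1 with h2 | h2
  · left
    have h3 : |(r : ℤ) - s| < p := by
      rw [abs_lt]
      constructor <;> omega
    have := Int.eq_zero_of_abs_lt_dvd h2 h3
    omega
  · right
    have h3 : p ∣ r + s := by exact_mod_cast h2
    obtain ⟨c, hc⟩ := h3
    have hc2 : c < 2 := by
      by_contra hcon
      have : p * 2 ≤ p * c := Nat.mul_le_mul_left _ (by omega)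
      omega
    have hp0 := hp.pos
    interval_cases c
    · have h4 : r = 0 ∧ s = 0 := by omega
      rw [h4.1, h4.2]
      simp
    · have h4 : r = p - s := by omega
      rw [← h4, Nat.mod_eq_of_lt hr.1]

theorem Av_quad (c k : ℤ) (hc : 0 < c) (hk : 0 ≤ k) : Av (fun h => c * h ^ 2 + k) := by
  apply Av_gen (fun h => c * h ^ 2 + k) 2 (c.natAbs * (1 + k.natAbs)) 2
    (by
      have : 0 < c.natAbs := by omega
      positivity)
  · intro p _ x
    refine ⟨c * (2 * x + p), ?_⟩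
    ring
  · intro p hp hpB
    apply quad_roots c k p hp
    intro h
    apply hpB
    apply Dvd.dvd.mul_right
    exact Int.natCast_dvd.1 h
  · intro x
    have h1 : |c * x ^ 2 + k| = c * |x| ^ 2 + k := by
      rw [sq_abs, abs_of_nonneg (by positivity)]
    rw [h1]
    push_cast
    rw [abs_of_pos hc, abs_of_nonneg hk]
    have h3 := abs_nonneg x
    obtain ⟨t, ht⟩ : ∃ t : ℤ, t = |x| := ⟨_, rfl⟩
    rw [← ht] at h3 ⊢
    have e : c * (1 + k) * (1 + t) ^ 2 - (c * t ^ 2 + k) =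
        c * (1 + 2 * t) + (c - 1) * k + c * k * (2 * t + t ^ 2) := by ring
    have h5 : 0 ≤ c * (1 + 2 * t) + (c - 1) * k + c * k * (2 * t + t ^ 2) := by
      have h4 : 0 ≤ c - 1 := by omega
      positivity
    omega
  · intro x hx
    have : 0 < x ^ 2 := by positivity
    positivity

/-- the form `α² x² + β²` for `i = (α, β)` -/
def Q (i : ℕ × ℕ) (x : ℤ) : ℤ := (i.1 : ℤ) ^ 2 * x ^ 2 + (i.2 : ℤ) ^ 2

/-- the product of the forms -/
def GI (I : Finset (ℕ × ℕ)) (x : ℤ) : ℤ := ∏ i ∈ I, Q i x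

/-- the first factor of the collision function of two forms -/
def R1 (i j : ℕ × ℕ) (h : ℤ) : ℤ :=
  ((i.1 : ℤ) * j.1) ^ 2 * h ^ 2 + ((j.1 : ℤ) * i.2 + (i.1 : ℤ) * j.2) ^ 2

/-- the second factor of the collision function of two forms -/
def R2 (i j : ℕ × ℕ) (h : ℤ) : ℤ :=
  ((i.1 : ℤ) * j.1) ^ 2 * h ^ 2 + ((j.1 : ℤ) * i.2 - (i.1 : ℤ) * j.2) ^ 2

/-- the collision function -/
def DI (I : Finset (ℕ × ℕ)) (h : ℤ) : ℤ :=
  h * ((∏ i ∈ I, Q i h) * ((∏ t ∈ I ×ˢ I, R1 t.1 t.2 h) * ∏ t ∈ I ×ˢ I, R2 t.1 t.2 h))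

theorem R_mul (i j : ℕ × ℕ) (x h : ℤ) : R1 i j h * R2 i j h =
    (((i.1 : ℤ) ^ 2 * Q j (x + h) - (j.1 : ℤ) ^ 2 * Q i x) *
      ((i.1 : ℤ) ^ 2 * Q j (x + h) - (j.1 : ℤ) ^ 2 * Q i x - 4 * ((i.1 * j.1 : ℤ) * x) * ((i.1 * j.1 : ℤ) * h))) +
      4 * ((i.1 * j.1 : ℤ) * h) ^ 2 * (j.1 : ℤ) ^ 2 * Q i x := by
  unfold R1 R2 Q
  ring

/-- the conditions on the pairs -/
def Pos (I : Finset (ℕ × ℕ)) : Prop := ∀ i ∈ I, 0 < i.1 ∧ 0 < i.2

theorem Q_pos (i : ℕ × ℕ) (hi : 0 < i.2) (x : ℤ) : 0 < Q i x := by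
  unfold Q
  have : (0 : ℤ) < i.2 := by exact_mod_cast hi
  positivity

theorem R1_pos (i j : ℕ × ℕ) (hi : 0 < i.1) (hj : 0 < j.1) (h : ℤ) (hh : h ≠ 0) : 0 < R1 i j h := by
  unfold R1
  have h1 : (0 : ℤ) < i.1 := by exact_mod_cast hi
  have h2 : (0 : ℤ) < j.1 := by exact_mod_cast hj
  have h3 : 0 < h ^ 2 := by positivity
  positivity

theorem R2_pos (i j : ℕ × ℕ) (hi : 0 < i.1) (hj : 0 < j.1) (h : ℤ) (hh : h ≠ 0) : 0 < R2 i j h := by
  unfold R2
  have h1 : (0 : ℤ) < i.1 := by exact_mod_cast hi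
  have h2 : (0 : ℤ) < j.1 := by exact_mod_cast hj
  have h3 : 0 < h ^ 2 := by positivity
  positivity

theorem dvd_FI (I : Finset (ℕ × ℕ)) (p : ℕ) (hp : p.Prime) (x : ℤ) : (p : ℤ) ∣ x * GI I x ↔
    (p : ℤ) ∣ x ∨ ∃ i ∈ I, (p : ℤ) ∣ Q i x := by
  have hpp := Nat.prime_iff_prime_int.1 hp
  rw [hpp.dvd_mul]
  unfold GI
  rw [hpp.dvd_finsetProd_iff]

/-- the polynomial `x G(x)` -/
noncomputable def PI (I : Finset (ℕ × ℕ)) : ℤ[X] := X * ∏ i ∈ I, (C ((i.1 : ℤ) ^ 2) * X ^ 2 + C ((i.2 : ℤ) ^ 2))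

theorem PI_eval (I : Finset (ℕ × ℕ)) (x : ℤ) : (PI I).eval x = x * GI I x := by
  unfold PI GI Q
  rw [eval_mul, eval_prod, eval_X]
  congr 1
  apply prod_congr rfl
  intro i _
  simp

theorem datI (I : Finset (ℕ × ℕ)) (hI : Pos I)
    (hloc : ∀ p : ℕ, p.Prime → ∃ n : ℤ, ¬ (p : ℤ) ∣ n * GI I n) (u : ℕ) :
    ∃ g : ℕ, u ≤ g ∧ Dat g (fun n => n * GI I n) (DI I) := by
  classical
  have hfun : (fun n : ℤ => (PI I).eval n) = fun n => n * GI I n := funext (PI_eval I)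
  obtain ⟨g₀, hg₀⟩ := poly_all (PI I)
    (by
      intro h
      have h1 := PI_eval I 1
      rw [h, eval_zero, one_mul] at h1
      have h2 : 0 < GI I 1 := by
        unfold GI
        exact prod_pos fun i hi => Q_pos i (hI i hi).2 1
      omega)
    (fun p hp => by
      obtain ⟨n, hn⟩ := hloc p hp
      exact ⟨n, by rw [PI_eval]; exact hn⟩)
  rw [hfun] at hg₀
  refine ⟨g₀ + u, by omega, ?_, ?_, ?_, ?_, ?_⟩
  · exact Pool.Agent.Y677.RSZ.Sys.mono hg₀ (by omega)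
  · intro p _ n hn
    exact hn.mul_right _
  · intro p hp x h h1 h2
    have hpp := Nat.prime_iff_prime_int.1 hp
    rw [dvd_FI I p hp] at h1 h2
    unfold DI
    rcases h1 with h3 | ⟨i, hi, h3⟩ <;> rcases h2 with h4 | ⟨j, hj, h4⟩
    · have : (p : ℤ) ∣ h := by
        have e : h = (x + h) - x := by ring
        rw [e]
        exact dvd_sub h4 h3
      exact this.mul_right _
    · have : (p : ℤ) ∣ Q j h := by
        have e : Q j h = Q j (x + h) - x * ((j.1 : ℤ) ^ 2 * (x + 2 * h)) := by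
          unfold Q
          ring
        rw [e]
        exact dvd_sub h4 (h3.mul_right _)
      exact ((this.trans (dvd_prod_of_mem (fun i => Q i h) hj)).mul_right _).mul_left _
    · have : (p : ℤ) ∣ Q i h := by
        have e : Q i h = Q i x + (x + h) * ((i.1 : ℤ) ^ 2 * (h - x)) := by
          unfold Q
          ring
        rw [e]
        exact dvd_add h3 (h4.mul_right _)
      exact ((this.trans (dvd_prod_of_mem (fun i => Q i h) hi)).mul_right _).mul_left _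
    · have h5 : (p : ℤ) ∣ R1 i j h * R2 i j h := by
        rw [R_mul i j x h]
        apply dvd_add
        · apply Dvd.dvd.mul_right
          exact dvd_sub (h4.mul_left _) (h3.mul_left _)
        · exact h3.mul_left _
      have hmem : ((i, j) : (ℕ × ℕ) × (ℕ × ℕ)) ∈ I ×ˢ I := mem_product.2 ⟨hi, hj⟩
      rcases hpp.dvd_mul.1 h5 with h6 | h6
      · exact (((h6.trans (dvd_prod_of_mem (fun t : (ℕ × ℕ) × (ℕ × ℕ) => R1 t.1 t.2 h) hmem)).mul_right
          _).mul_left _).mul_left _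
      · exact (((h6.trans (dvd_prod_of_mem (fun t : (ℕ × ℕ) × (ℕ × ℕ) => R2 t.1 t.2 h) hmem)).mul_left
          _).mul_left _).mul_left _
  · intro h hh
    unfold DI
    refine mul_ne_zero hh (mul_ne_zero ?_ (mul_ne_zero ?_ ?_))
    · exact prod_ne_zero_iff.2 fun i hi => (Q_pos i (hI i hi).2 h).ne'
    · exact prod_ne_zero_iff.2 fun t ht => (R1_pos t.1 t.2 (hI _ (mem_product.1 ht).1).1
        (hI _ (mem_product.1 ht).2).1 h hh).ne'
    · exact prod_ne_zero_iff.2 fun t ht => (R2_pos t.1 t.2 (hI _ (mem_product.1 ht).1).1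
        (hI _ (mem_product.1 ht).2).1 h hh).ne'
  · have a1 : Av (fun h => h) := by
      have := Av_lin 1 0 (by norm_num) (by intro h hh; simpa using hh)
      simpa using this
    have n2 : ∀ h : ℤ, h ≠ 0 → (∏ i ∈ I, Q i h) ≠ 0 := fun h _ =>
      prod_ne_zero_iff.2 fun i hi => (Q_pos i (hI i hi).2 h).ne'
    have n3 : ∀ h : ℤ, h ≠ 0 → (∏ t ∈ I ×ˢ I, R1 t.1 t.2 h) ≠ 0 := fun h hh =>
      prod_ne_zero_iff.2 fun t ht => (R1_pos t.1 t.2 (hI _ (mem_product.1 ht).1).1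
        (hI _ (mem_product.1 ht).2).1 h hh).ne'
    have n4 : ∀ h : ℤ, h ≠ 0 → (∏ t ∈ I ×ˢ I, R2 t.1 t.2 h) ≠ 0 := fun h hh =>
      prod_ne_zero_iff.2 fun t ht => (R2_pos t.1 t.2 (hI _ (mem_product.1 ht).1).1
        (hI _ (mem_product.1 ht).2).1 h hh).ne'
    have a2 : Av (fun h => ∏ i ∈ I, Q i h) := by
      apply Av_prod I (fun i h => Q i h)
      · intro i hi h _
        exact (Q_pos i (hI i hi).2 h).ne'
      · intro i hi
        have h1 : (0 : ℤ) < i.1 := by exact_mod_cast (hI i hi).1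
        exact Av_quad ((i.1 : ℤ) ^ 2) ((i.2 : ℤ) ^ 2) (by positivity) (by positivity)
    have a3 : Av (fun h => ∏ t ∈ I ×ˢ I, R1 t.1 t.2 h) := by
      apply Av_prod (I ×ˢ I) (fun t h => R1 t.1 t.2 h)
      · intro t ht h hh
        exact (R1_pos t.1 t.2 (hI _ (mem_product.1 ht).1).1 (hI _ (mem_product.1 ht).2).1 h hh).ne'
      · intro t ht
        have h1 : (0 : ℤ) < t.1.1 := by exact_mod_cast (hI _ (mem_product.1 ht).1).1
        have h2 : (0 : ℤ) < t.2.1 := by exact_mod_cast (hI _ (mem_product.1 ht).2).1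
        exact Av_quad _ _ (by positivity) (by positivity)
    have a4 : Av (fun h => ∏ t ∈ I ×ˢ I, R2 t.1 t.2 h) := by
      apply Av_prod (I ×ˢ I) (fun t h => R2 t.1 t.2 h)
      · intro t ht h hh
        exact (R2_pos t.1 t.2 (hI _ (mem_product.1 ht).1).1 (hI _ (mem_product.1 ht).2).1 h hh).ne'
      · intro t ht
        have h1 : (0 : ℤ) < t.1.1 := by exact_mod_cast (hI _ (mem_product.1 ht).1).1
        have h2 : (0 : ℤ) < t.2.1 := by exact_mod_cast (hI _ (mem_product.1 ht).2).1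
        exact Av_quad _ _ (by positivity) (sq_nonneg _)
    have a5 := Av_mul _ _ n3 n4 a3 a4
    have a6 := Av_mul _ _ n2 (fun h hh => mul_ne_zero (n3 h hh) (n4 h hh)) a2 a5
    have a7 := Av_mul _ _ (fun h hh => hh) (fun h hh => mul_ne_zero (n2 h hh) (mul_ne_zero (n3 h hh) (n4 h hh))) a1 a6
    exact a7

end Pool.Agent.V8H34.LF
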