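import Pool.Agent.V8H34.LF.Vv

/-!
Runs of primes at which finitely many forms `α² p² + β²` are free of small prime factors.
-/

set_option autoImplicit false

namespace Pool.Agent.V8H34.LF

open Finset Filter Polynomial
open Pool.Agent.V8H2.MG

theorem main (I : Finset (ℕ × ℕ)) (hI : Pos I) (hc : ∀ i ∈ I, Nat.Coprime i.1 i.2)
    (hdis : ∀ i ∈ I, ∀ j ∈ I, i ≠ j → i.1 * j.2 ≠ j.1 * i.2)
    (hloc : ∀ p : ℕ, p.Prime → ∃ n : ℤ, ¬ (p : ℤ) ∣ n * GI I n) (m q a : ℕ) (hq : 0 < q)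
    (ha : ∀ p : ℕ, p.Prime → p ∣ q → ¬ (p : ℤ) ∣ (a : ℤ) * GI I a) :
    ∃ δ c₁ c₂ : ℝ, 0 < δ ∧ δ ≤ 1 / 24 ∧ 0 < c₁ ∧ 0 < c₂ ∧
      (∀ᶠ N : ℕ in atTop, c₁ * (N / Real.log N ^ (I.card + 1)) ≤ ((SP (GI I) δ N).card : ℝ) ∧
        ((SP (GI I) δ N).card : ℝ) ≤ c₂ * (N / Real.log N ^ (I.card + 1))) ∧
      ∀ η : ℝ, 0 < η → ∃ c : ℝ, 0 < c ∧ ∀ᶠ N : ℕ in atTop,
        c * ((SP (GI I) δ N).card : ℝ) ≤
          ((Run (SP (GI I) δ N) m q a (η * Real.log N ^ (I.card + 1))).card : ℝ) := by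
  classical
  obtain ⟨g, hg, hD⟩ := datI I hI hloc 1
  obtain ⟨W, δ, -, -, hW0, hδ, hδ24, -, -, -, hup, hrun⟩ :=
    runs g hg (GI I) (DI I) hD 1 g 0 le_rfl (by omega) le_rfl
      (fun p hp _ => by
        unfold Pool.Agent.Y677.RSZ.rt
        rw [Nat.one_le_iff_ne_zero, ← Nat.pos_iff_ne_zero, card_pos]
        exact ⟨0, by rw [mem_filter, mem_range]; exact ⟨hp.pos, by simp⟩⟩)
      (fun p hp _ => (hD.sys.root p hp).1) m q a hq ha
  obtain ⟨b₁, b₂, hb₁, hb₂, hvb⟩ := vv_bounds I hI hc hdis g (DI I) hD W hW0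
  obtain ⟨n, hn⟩ : ∃ n : ℕ, n = I.card + 1 := ⟨_, rfl⟩
  rw [← hn] at hvb ⊢
  -- the logarithm of the level
  have hlogT : Tendsto (fun N : ℕ => Real.log N) atTop atTop :=
    Real.tendsto_log_atTop.comp (tendsto_natCast_atTop_atTop (R := ℝ))
  have hz : ∀ᶠ N : ℕ in atTop, 3 ≤ zf δ N ∧ δ / 2 * Real.log N ≤ Real.log (zf δ N) ∧
      Real.log (zf δ N) ≤ Real.log N := by
    filter_upwards [hlogT.eventually_ge_atTop (8 / δ), eventually_ge_atTop 2] with N h1 h2
    obtain ⟨h3, h4⟩ := zf_spec δ N (by omega)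
    have hN0 : (0 : ℝ) < N := by
      have : 0 < N := by omega
      exact_mod_cast this
    have hl8 : 8 ≤ δ * Real.log N := by
      rw [div_le_iff₀ hδ] at h1
      linarith
    have h5 : Real.exp (δ * Real.log N) = (N : ℝ) ^ δ := by
      rw [Real.rpow_def_of_pos hN0, mul_comm]
    have h6 : Real.exp (δ / 2 * Real.log N) + 1 ≤ (N : ℝ) ^ δ := by
      rw [← h5]
      obtain ⟨t, ht⟩ : ∃ t : ℝ, t = Real.exp (δ / 2 * Real.log N) := ⟨_, rfl⟩
      have h7 : Real.exp (δ * Real.log N) = t * t := by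
        rw [ht, ← Real.exp_add]
        congr 1
        ring
      have h8 : 5 ≤ t := by
        rw [ht]
        have := Real.add_one_le_exp (δ / 2 * Real.log N)
        linarith
      rw [h7, ← ht]
      nlinarith
    have h9 : Real.exp (δ / 2 * Real.log N) ≤ zf δ N := by linarith
    have h10 : (0 : ℝ) < zf δ N := lt_of_lt_of_le (Real.exp_pos _) h9
    refine ⟨?_, ?_, ?_⟩
    · have h11 := Real.add_one_le_exp (δ / 2 * Real.log N)
      have h12 : (3 : ℝ) ≤ zf δ N := by linarith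
      exact_mod_cast h12
    · rw [Real.le_log_iff_exp_le h10]
      exact h9
    · apply Real.log_le_log h10
      refine h3.le.trans ?_
      have h13 : (1 : ℝ) ≤ N := by
        have : 1 ≤ N := by omega
        exact_mod_cast this
      calc (N : ℝ) ^ δ ≤ (N : ℝ) ^ (1 : ℝ) := Real.rpow_le_rpow_of_exponent_le h13 (by linarith)
        _ = N := Real.rpow_one _
  -- the density
  have hv : ∀ᶠ N : ℕ in atTop, 0 < Real.log (N : ℝ) ∧
      b₁ / Real.log N ^ n ≤ vv (fun n => n * GI I n) W (zf δ N) ∧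
      vv (fun n => n * GI I n) W (zf δ N) ≤ b₂ * (2 / δ) ^ n / Real.log N ^ n := by
    filter_upwards [hz, hlogT.eventually_ge_atTop 1] with N h1 h2
    obtain ⟨h3, h4, h5⟩ := h1
    obtain ⟨h6, h7⟩ := hvb (zf δ N) h3
    have hl0 : 0 < Real.log (N : ℝ) := by linarith
    have hlz : 0 < Real.log (zf δ N : ℝ) := lt_of_lt_of_le (by positivity) h4
    refine ⟨hl0, le_trans ?_ h6, h7.trans ?_⟩
    · gcongr
    · rw [div_le_div_iff₀ (by positivity) (by positivity), mul_assoc, ← mul_pow]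
      have h8 : Real.log (N : ℝ) ≤ 2 / δ * Real.log (zf δ N : ℝ) := by
        rw [div_mul_eq_mul_div, le_div_iff₀ hδ]
        linarith
      gcongr
  obtain ⟨c₀, hc₀, hev₀⟩ := hrun 1 one_pos
  refine ⟨δ, c₀ * b₁, 3 * (b₂ * (2 / δ) ^ n), hδ, hδ24, by positivity, by positivity, ?_, ?_⟩
  · filter_upwards [hup, hev₀, hv] with N h1 h2 h3
    obtain ⟨hl0, h4, h5⟩ := h3
    have hN0 : (0 : ℝ) ≤ N := Nat.cast_nonneg _
    constructor
    · have h6 := h2 _ le_rfl
      have h7 : ((Run (SP (GI I) δ N) m q a (1 / vv (fun n => n * GI I n) W (zf δ N))).card : ℝ) ≤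
          ((SP (GI I) δ N).card : ℝ) := by
        exact_mod_cast card_le_card (filter_subset _ _)
      calc c₀ * b₁ * (N / Real.log N ^ n) = c₀ * (N * (b₁ / Real.log N ^ n)) := by ring
        _ ≤ c₀ * (N * vv (fun n => n * GI I n) W (zf δ N)) := by gcongr
        _ ≤ _ := h6.trans h7
    · calc ((SP (GI I) δ N).card : ℝ) ≤ 3 * (N * vv (fun n => n * GI I n) W (zf δ N)) := h1
        _ ≤ 3 * (N * (b₂ * (2 / δ) ^ n / Real.log N ^ n)) := by gcongr
        _ = _ := by ring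
  · intro η hη
    obtain ⟨c, hc, hev⟩ := hrun (η * b₁) (by positivity)
    refine ⟨c / 3, by positivity, ?_⟩
    filter_upwards [hup, hev, hv] with N h1 h2 h3
    obtain ⟨hl0, h4, h5⟩ := h3
    have hv0 : 0 < vv (fun n => n * GI I n) W (zf δ N) := lt_of_lt_of_le (by positivity) h4
    have h6 := h2 (η * Real.log N ^ n) (by
      rw [div_le_iff₀ hv0]
      calc η * b₁ = η * Real.log N ^ n * (b₁ / Real.log N ^ n) := by field_simp
        _ ≤ _ := by gcongr)
    calc c / 3 * ((SP (GI I) δ N).card : ℝ) ≤ c / 3 * (3 * (N * vv (fun n => n * GI I n) W (zf δ N))) := by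
          gcongr
      _ = c * (N * vv (fun n => n * GI I n) W (zf δ N)) := by ring
      _ ≤ _ := h6

end Pool.Agent.V8H34.LF
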