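import Pool.Agent.V8H34.LF.Forms
import Pool.Agent.H474R2.GE.FA

/-!
The density of the numbers `n` with `n ∏ (α² n² + β²)` free of prime factors up to `z`: order `(log z) ^ (-(|I| + 1))`.
-/

set_option autoImplicit false

namespace Pool.Agent.V8H34.LF

open Finset Filter Polynomial
open Pool.Agent.V8H2.MG
open Pool.Agent.Y677.RSZ (rt Sys rhoT poly_all)
open Pool.Agent.TH423.SH (PS)
open Pool.Agent.H474R2.PG (rho Sg PR)

/-- the polynomial `α² X² + β²` -/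
noncomputable def fq (i : ℕ × ℕ) : ℤ[X] := C ((i.1 : ℤ) ^ 2) * X ^ 2 + C ((i.2 : ℤ) ^ 2)

theorem fq_eval (i : ℕ × ℕ) (x : ℤ) : (fq i).eval x = Q i x := by
  unfold fq Q
  simp

theorem fq_deg (i : ℕ × ℕ) (hi : 0 < i.1) : (fq i).natDegree = 2 := by
  have h1 : ((i.1 : ℤ)) ^ 2 ≠ 0 := by positivity
  have e : fq i = C ((i.1 : ℤ) ^ 2) * X ^ 2 + C 0 * X + C ((i.2 : ℤ) ^ 2) := by
    unfold fq
    simp
  rw [e]
  exact natDegree_quadratic h1

theorem fq_irr (i : ℕ × ℕ) (h1 : 0 < i.1) (h2 : 0 < i.2) (hc : Nat.Coprime i.1 i.2) : Irreducible (fq i) := by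
  have hprim : (fq i).IsPrimitive := by
    intro r hr
    rw [C_dvd_iff_dvd_coeff] at hr
    have c0 := hr 0
    have c2 := hr 2
    have e0 : (fq i).coeff 0 = (i.2 : ℤ) ^ 2 := by
      unfold fq
      rw [coeff_add, coeff_C_mul, coeff_X_pow, coeff_C]
      norm_num
    have e2 : (fq i).coeff 2 = (i.1 : ℤ) ^ 2 := by
      unfold fq
      rw [coeff_add, coeff_C_mul, coeff_X_pow, coeff_C]
      simp
    rw [e0] at c0
    rw [e2] at c2
    have hcop : IsCoprime ((i.1 : ℤ) ^ 2) ((i.2 : ℤ) ^ 2) :=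
      IsCoprime.pow (Nat.isCoprime_iff_coprime.2 hc)
    exact hcop.isUnit_of_dvd' c2 c0
  rw [IsPrimitive.Int.irreducible_iff_irreducible_map_cast hprim]
  have hdeg : ((fq i).map (Int.castRingHom ℚ)).natDegree = 2 := by
    rw [natDegree_map_eq_of_injective (RingHom.injective_int _), fq_deg i h1]
  apply irreducible_of_degree_le_three_of_not_isRoot
  · rw [hdeg]
    decide
  · intro x hx
    rw [IsRoot.def] at hx
    unfold fq at hx
    simp only [Polynomial.map_add, Polynomial.map_mul, Polynomial.map_pow, map_X, map_C, eval_add, eval_mul,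
      eval_pow, eval_X, eval_C] at hx
    have h3 : (0 : ℚ) < (i.2 : ℚ) := by exact_mod_cast h2
    have h4 : (0 : ℚ) < (i.2 : ℚ) ^ 2 := by positivity
    have h5 : (0 : ℚ) ≤ (i.1 : ℚ) ^ 2 * x ^ 2 := by positivity
    simp only [eq_intCast, Int.cast_pow, Int.cast_natCast] at hx
    linarith

/-- the expected number of roots -/
noncomputable def Tn (I : Finset (ℕ × ℕ)) (p : ℕ) : ℕ := 1 + ∑ i ∈ I, rho (fq i) p

theorem rho_fq (i : ℕ × ℕ) (p : ℕ) : rho (fq i) p = ((range p).filter (fun r : ℕ => (p : ℤ) ∣ Q i r)).card := by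
  unfold rho
  congr 1
  apply filter_congr
  intro r _
  rw [fq_eval]

theorem rt_le (I : Finset (ℕ × ℕ)) (p : ℕ) (hp : p.Prime) : rt (fun n => n * GI I n) p ≤ Tn I p := by
  classical
  unfold rt Tn
  have hsub : (range p).filter (fun r : ℕ => (p : ℤ) ∣ (r : ℤ) * GI I (r : ℤ)) ⊆
      {0} ∪ I.biUnion (fun i => (range p).filter (fun r : ℕ => (p : ℤ) ∣ Q i r)) := by
    intro r hr
    rw [mem_filter, mem_range, dvd_FI I p hp] at hr
    rw [mem_union, mem_singleton, mem_biUnion]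
    rcases hr.2 with h | ⟨i, hi, h⟩
    · left
      have h1 : p ∣ r := by exact_mod_cast h
      exact Nat.eq_zero_of_dvd_of_lt h1 hr.1
    · right
      exact ⟨i, hi, mem_filter.2 ⟨mem_range.2 hr.1, h⟩⟩
  refine (card_le_card hsub).trans ((card_union_le _ _).trans ?_)
  rw [card_singleton]
  apply Nat.add_le_add_left
  refine card_biUnion_le.trans ?_
  apply sum_le_sum
  intro i _
  rw [rho_fq]

/-- the modulus of the exceptional primes -/
def MM (I : Finset (ℕ × ℕ)) : ℕ :=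
  (∏ i ∈ I, i.2) * ∏ t ∈ (I ×ˢ I).filter (fun t => t.1 ≠ t.2),
    (((t.2.1 : ℤ) * t.1.2) ^ 2 - ((t.1.1 : ℤ) * t.2.2) ^ 2).natAbs

theorem MM_pos (I : Finset (ℕ × ℕ)) (hI : Pos I)
    (hdis : ∀ i ∈ I, ∀ j ∈ I, i ≠ j → i.1 * j.2 ≠ j.1 * i.2) : 0 < MM I := by
  unfold MM
  apply Nat.mul_pos
  · exact prod_pos fun i hi => (hI i hi).2
  · apply prod_pos
    intro t ht
    rw [mem_filter, mem_product] at ht
    rw [Int.natAbs_pos]
    intro h0
    have h1 : (((t.2.1 : ℤ) * t.1.2)) ^ 2 = ((t.1.1 : ℤ) * t.2.2) ^ 2 := by linarith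
    have h2 : (((t.2.1 : ℤ) * t.1.2)) = ((t.1.1 : ℤ) * t.2.2) :=
      (pow_left_inj₀ (by positivity) (by positivity) (by norm_num)).1 h1
    exact hdis t.1 ht.1.1 t.2 ht.1.2 ht.2 (by exact_mod_cast h2.symm)

theorem rt_ge (I : Finset (ℕ × ℕ)) (p : ℕ) (hp : p.Prime) (hpM : ¬ p ∣ MM I) :
    Tn I p ≤ rt (fun n => n * GI I n) p := by
  classical
  have hpp := Nat.prime_iff_prime_int.1 hp
  have hβ : ∀ i ∈ I, ¬ p ∣ i.2 := by
    intro i hi h
    apply hpM
    unfold MM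
    exact (h.trans (dvd_prod_of_mem (fun i : ℕ × ℕ => i.2) hi)).mul_right _
  have hdis : ∀ i ∈ I, ∀ j ∈ I, i ≠ j → ∀ r : ℤ, (p : ℤ) ∣ Q i r → (p : ℤ) ∣ Q j r → False := by
    intro i hi j hj hij r h1 h2
    apply hpM
    unfold MM
    apply Dvd.dvd.mul_left
    have hmem : ((i, j) : (ℕ × ℕ) × (ℕ × ℕ)) ∈ (I ×ˢ I).filter (fun t => t.1 ≠ t.2) :=
      mem_filter.2 ⟨mem_product.2 ⟨hi, hj⟩, hij⟩
    refine Dvd.dvd.trans ?_ (dvd_prod_of_mem (fun t : (ℕ × ℕ) × (ℕ × ℕ) =>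
      (((t.2.1 : ℤ) * t.1.2) ^ 2 - ((t.1.1 : ℤ) * t.2.2) ^ 2).natAbs) hmem)
    simp only
    rw [← Int.natCast_dvd]
    have e : ((j.1 : ℤ) * i.2) ^ 2 - ((i.1 : ℤ) * j.2) ^ 2 = (j.1 : ℤ) ^ 2 * Q i r - (i.1 : ℤ) ^ 2 * Q j r := by
      unfold Q
      ring
    rw [e]
    exact dvd_sub (h1.mul_left _) (h2.mul_left _)
  unfold rt Tn
  have hsub : {0} ∪ I.biUnion (fun i => (range p).filter (fun r : ℕ => (p : ℤ) ∣ Q i r)) ⊆
      (range p).filter (fun r : ℕ => (p : ℤ) ∣ (r : ℤ) * GI I (r : ℤ)) := by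
    intro r hr
    rw [mem_union, mem_singleton, mem_biUnion] at hr
    rw [mem_filter, mem_range, dvd_FI I p hp]
    rcases hr with rfl | ⟨i, hi, h⟩
    · exact ⟨hp.pos, by simp⟩
    · rw [mem_filter, mem_range] at h
      exact ⟨h.1, Or.inr ⟨i, hi, h.2⟩⟩
  refine le_trans (le_of_eq ?_) (card_le_card hsub)
  rw [card_union_of_disjoint, card_singleton, card_biUnion]
  · congr 1
    apply sum_congr rfl
    intro i _
    rw [rho_fq]
  · intro i hi j hj hij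
    rw [Function.onFun, disjoint_left]
    intro r hr hs
    rw [mem_filter] at hr hs
    exact hdis i hi j hj hij r hr.2 hs.2
  · rw [disjoint_left]
    intro r hr hs
    rw [mem_singleton] at hr
    rw [mem_biUnion] at hs
    obtain ⟨i, hi, hs⟩ := hs
    rw [mem_filter, hr] at hs
    have h1 : (p : ℤ) ∣ (i.2 : ℤ) ^ 2 := by
      have := hs.2
      unfold Q at this
      simpa using this
    exact hβ i hi (by exact_mod_cast hpp.dvd_of_dvd_pow h1)

/-- the sum of `Tn p / p` -/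
theorem sum_T (I : Finset (ℕ × ℕ)) (hI : Pos I) (hc : ∀ i ∈ I, Nat.Coprime i.1 i.2) :
    ∃ C : ℝ, 0 ≤ C ∧ ∀ w : ℝ, 3 ≤ w →
      |∑ p ∈ PR w, (Tn I p : ℝ) / (p : ℝ) - ((I.card : ℝ) + 1) * Real.log (Real.log w)| ≤ C := by
  classical
  have hx : Irreducible (X : ℤ[X]) := irreducible_X
  obtain ⟨C0, hC0, h0⟩ := Pool.Agent.H474R2.GE.mertens_rho (X : ℤ[X]) hx (by simp)
  have hr : ∀ i : ℕ × ℕ, ∃ C : ℝ, 0 ≤ C ∧ (i ∈ I → ∀ w : ℝ, 3 ≤ w →
      |Sg (rho (fq i)) w - Real.log (Real.log w)| ≤ C) := by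
    intro i
    by_cases hi : i ∈ I
    · obtain ⟨C, hC, h⟩ := Pool.Agent.H474R2.GE.mertens_rho (fq i)
        (fq_irr i (hI i hi).1 (hI i hi).2 (hc i hi)) (by rw [fq_deg i (hI i hi).1]; norm_num)
      exact ⟨C, hC, fun _ => h⟩
    · exact ⟨0, le_rfl, fun h => absurd h hi⟩
  choose Cf hCf hf using hr
  refine ⟨C0 + ∑ i ∈ I, Cf i, add_nonneg hC0 (sum_nonneg fun i _ => hCf i), fun w hw => ?_⟩
  have e1 : ∑ p ∈ PR w, (Tn I p : ℝ) / (p : ℝ) = Sg (rho (X : ℤ[X])) w + ∑ i ∈ I, Sg (rho (fq i)) w := by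
    unfold Sg
    rw [sum_comm, ← sum_add_distrib]
    apply sum_congr rfl
    intro p hp
    have hpp : p.Prime := by
      unfold PR at hp
      exact (mem_filter.1 hp).2
    have e2 : rho (X : ℤ[X]) p = 1 := by
      unfold rho
      rw [card_eq_one]
      refine ⟨0, ?_⟩
      ext r
      rw [mem_filter, mem_range, mem_singleton, eval_X]
      constructor
      · rintro ⟨h1, h2⟩
        have h3 : p ∣ r := by exact_mod_cast h2
        exact Nat.eq_zero_of_dvd_of_lt h3 h1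
      · rintro rfl
        exact ⟨hpp.pos, by simp⟩
    rw [e2]
    unfold Tn
    push_cast
    rw [add_div, sum_div]
  rw [e1]
  have e3 : Sg (rho (X : ℤ[X])) w + ∑ i ∈ I, Sg (rho (fq i)) w - ((I.card : ℝ) + 1) * Real.log (Real.log w) =
      (Sg (rho (X : ℤ[X])) w - Real.log (Real.log w)) +
        ∑ i ∈ I, (Sg (rho (fq i)) w - Real.log (Real.log w)) := by
    rw [sum_sub_distrib, sum_const, nsmul_eq_mul]
    ring
  rw [e3]
  refine (abs_add_le _ _).trans (add_le_add (h0 w hw) ?_)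
  refine (abs_sum_le_sum_abs _ _).trans (sum_le_sum fun i hi => hf i hi w hw)

end Pool.Agent.V8H34.LF
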