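import Pool.Agent.V8H34.LF.Mert

/-!
The order of magnitude of the density of the sifted set.
-/

set_option autoImplicit false

namespace Pool.Agent.V8H34.LF

open Finset Filter Polynomial
open Pool.Agent.V8H2.MG
open Pool.Agent.Y677.RSZ (rt Sys rhoT poly_all)
open Pool.Agent.TH423.SH (PS)
open Pool.Agent.H474R2.PG (rho Sg PR)

theorem sum_inv_sq (P : Finset ℕ) (z : ℕ) (hP : ∀ p ∈ P, 1 ≤ p ∧ p ≤ z) : ∑ p ∈ P, 1 / (p : ℝ) ^ 2 ≤ 2 := by
  have h1 : P ⊆ Ioo 0 (z + 1) := by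
    intro p hp
    have := hP p hp
    rw [mem_Ioo]
    omega
  have h2 := sum_Ioo_inv_sq_le (α := ℝ) 0 (z + 1)
  calc ∑ p ∈ P, 1 / (p : ℝ) ^ 2 ≤ ∑ p ∈ Ioo 0 (z + 1), 1 / (p : ℝ) ^ 2 :=
        sum_le_sum_of_subset_of_nonneg h1 fun p _ _ => by positivity
    _ = ∑ p ∈ Ioo 0 (z + 1), ((p : ℝ) ^ 2)⁻¹ := sum_congr rfl fun p _ => one_div _
    _ ≤ 2 := by
        refine h2.trans ?_
        norm_num

theorem one_sub_exp (x : ℝ) (h0 : 0 ≤ x) (h1 : x ≤ 1 / 2) : Real.exp (-(x + 2 * x ^ 2)) ≤ 1 - x := by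
  have h2 : 0 < 1 - x := by linarith
  rw [← Real.log_le_log_iff (Real.exp_pos _) h2, Real.log_exp]
  refine le_trans ?_ (Real.one_sub_inv_le_log_of_pos h2)
  have h3 : 1 - (1 - x)⁻¹ = -(x / (1 - x)) := by
    field_simp
    ring
  rw [h3, neg_le_neg_iff, div_le_iff₀ h2]
  nlinarith [mul_nonneg h0 h0, mul_nonneg (mul_nonneg h0 h0) (sub_nonneg.2 h1)]

theorem vv_bounds (I : Finset (ℕ × ℕ)) (hI : Pos I) (hc : ∀ i ∈ I, Nat.Coprime i.1 i.2)
    (hdis : ∀ i ∈ I, ∀ j ∈ I, i ≠ j → i.1 * j.2 ≠ j.1 * i.2) (g : ℕ) (D : ℤ → ℤ)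
    (hD : Dat g (fun n => n * GI I n) D) (W : ℕ) (hW : 0 < W) :
    ∃ c₁ c₂ : ℝ, 0 < c₁ ∧ 0 < c₂ ∧ ∀ z : ℕ, 3 ≤ z →
      c₁ / Real.log z ^ (I.card + 1) ≤ vv (fun n => n * GI I n) W z ∧
      vv (fun n => n * GI I n) W z ≤ c₂ / Real.log z ^ (I.card + 1) := by
  classical
  obtain ⟨C, hC, hsum⟩ := sum_T I hI hc
  obtain ⟨K, hK⟩ : ∃ K : ℝ, K = 8 * (g : ℝ) ^ 3 + 2 * (g : ℝ) ^ 2 := ⟨_, rfl⟩
  obtain ⟨L, hL⟩ : ∃ L : ℝ, L = ∑ p ∈ (W * MM I).primeFactors, (Tn I p : ℝ) / (p : ℝ) := ⟨_, rfl⟩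
  have hM := MM_pos I hI hdis
  refine ⟨Real.exp (-(C + 2 * K)), Real.exp (C + L), Real.exp_pos _, Real.exp_pos _, fun z hz => ?_⟩
  have hzr : (3 : ℝ) ≤ (z : ℝ) := by exact_mod_cast hz
  have hlog1 : 1 < Real.log z := by
    rw [Real.lt_log_iff_exp_lt (by linarith)]
    have := Real.exp_one_lt_d9
    linarith
  have hll : 0 < Real.log (Real.log z) := Real.log_pos hlog1
  have hs := abs_le.1 (hsum z hzr)
  obtain ⟨S, hS⟩ : ∃ S : ℝ, S = ∑ p ∈ PR (z : ℝ), (Tn I p : ℝ) / (p : ℝ) := ⟨_, rfl⟩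
  rw [← hS] at hs
  have hpow : Real.log z ^ (I.card + 1) = Real.exp (((I.card : ℝ) + 1) * Real.log (Real.log z)) := by
    rw [mul_comm, Real.exp_mul, Real.exp_log (by linarith)]
    rw [← Real.rpow_natCast]
    push_cast
    rfl
  rw [hpow, ← Real.exp_sub, ← Real.exp_sub]
  have hPR : ∀ p : ℕ, p ∈ PR (z : ℝ) ↔ p.Prime ∧ p ≤ z := by
    intro p
    unfold PR
    rw [mem_filter, mem_Icc, Nat.floor_natCast]
    constructor
    · rintro ⟨⟨h1, h2⟩, h3⟩
      exact ⟨h3, h2⟩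
    · rintro ⟨h1, h2⟩
      exact ⟨⟨h1.one_lt.le, h2⟩, h1⟩
  have hPS : PS W z ⊆ PR (z : ℝ) := by
    intro p hp
    obtain ⟨h1, h2, -⟩ := PS_mem W z p hp
    exact (hPR p).2 ⟨h1, h2⟩
  unfold vv
  constructor
  · -- lower bound
    have hfac : ∀ p ∈ PS W z, Real.exp (-((Tn I p : ℝ) / p + K * (1 / (p : ℝ) ^ 2))) ≤
        1 - (rt (fun n => n * GI I n) p : ℝ) / (p : ℝ) := by
      intro p hp
      obtain ⟨h1, h2, -⟩ := PS_mem W z p hp
      have hp0 : (0 : ℝ) < p := by exact_mod_cast h1.pos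
      have hr1 : rt (fun n => n * GI I n) p ≤ Tn I p := rt_le I p h1
      obtain ⟨hr2, hr3⟩ := hD.sys.root p h1
      have hr1' : (rt (fun n => n * GI I n) p : ℝ) ≤ Tn I p := by exact_mod_cast hr1
      have hr2' : (rt (fun n => n * GI I n) p : ℝ) ≤ g := by exact_mod_cast hr2
      have hr3' : (rt (fun n => n * GI I n) p : ℝ) + 1 ≤ p := by exact_mod_cast hr3
      obtain ⟨r, hr⟩ : ∃ r : ℝ, r = rt (fun n => n * GI I n) p := ⟨_, rfl⟩
      rw [← hr] at hr1' hr2' hr3' ⊢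
      have hr0 : 0 ≤ r := by rw [hr]; exact Nat.cast_nonneg _
      have hg0 : (0 : ℝ) ≤ g := Nat.cast_nonneg _
      by_cases hpg : (p : ℝ) ≤ 2 * g
      · have h3 : 1 / (p : ℝ) ≤ 1 - r / p := by
          rw [le_sub_iff_add_le, ← add_div, div_le_one hp0]
          linarith
        refine le_trans ?_ h3
        have h4 : Real.exp (-(p : ℝ)) ≤ 1 / (p : ℝ) := by
          rw [Real.exp_neg, one_div]
          apply inv_anti₀ hp0
          have := Real.add_one_le_exp (p : ℝ)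
          linarith
        refine le_trans (Real.exp_le_exp.2 ?_) h4
        rw [neg_le_neg_iff]
        have h5 : (0 : ℝ) ≤ (Tn I p : ℝ) / p := by positivity
        have h6 : (p : ℝ) ≤ K * (1 / (p : ℝ) ^ 2) := by
          rw [mul_one_div, le_div_iff₀ (by positivity)]
          have h7 : (p : ℝ) ^ 3 ≤ (2 * g) ^ 3 := by gcongr
          rw [hK]
          nlinarith [sq_nonneg (g : ℝ)]
        linarith
      · push Not at hpg
        have hx0 : 0 ≤ r / p := by positivity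
        have hx1 : r / p ≤ 1 / 2 := by
          rw [div_le_div_iff₀ hp0 (by norm_num)]
          linarith
        refine le_trans (Real.exp_le_exp.2 ?_) (one_sub_exp (r / p) hx0 hx1)
        rw [neg_le_neg_iff]
        have h5 : r / p ≤ (Tn I p : ℝ) / p := by gcongr
        have h6 : 2 * (r / p) ^ 2 ≤ K * (1 / (p : ℝ) ^ 2) := by
          rw [div_pow, mul_div_assoc', mul_one_div]
          apply div_le_div_of_nonneg_right _ (by positivity)
          have h7 : r ^ 2 ≤ (g : ℝ) ^ 2 := by gcongr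
          rw [hK]
          have h8 : (0 : ℝ) ≤ (g : ℝ) ^ 3 := by positivity
          linarith
        linarith
    have h1 : Real.exp (∑ p ∈ PS W z, -((Tn I p : ℝ) / p + K * (1 / (p : ℝ) ^ 2))) ≤
        ∏ p ∈ PS W z, (1 - (rt (fun n => n * GI I n) p : ℝ) / (p : ℝ)) := by
      rw [Real.exp_sum]
      exact prod_le_prod (fun p _ => (Real.exp_pos _).le) hfac
    refine le_trans (Real.exp_le_exp.2 ?_) h1
    rw [sum_neg_distrib, sum_add_distrib, ← mul_sum]
    have h2 : ∑ p ∈ PS W z, (Tn I p : ℝ) / p ≤ S := by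
      rw [hS]
      exact sum_le_sum_of_subset_of_nonneg hPS fun p _ _ => by positivity
    have h3 : ∑ p ∈ PS W z, 1 / (p : ℝ) ^ 2 ≤ 2 := by
      apply sum_inv_sq _ z
      intro p hp
      obtain ⟨h1, h2, -⟩ := PS_mem W z p hp
      exact ⟨h1.one_lt.le, h2⟩
    have hK0 : 0 ≤ K := by
      rw [hK]
      positivity
    have h4 := mul_le_mul_of_nonneg_left h3 hK0
    linarith [hs.2]
  · -- upper bound
    have hfac : ∀ p ∈ PS W z, 1 - (rt (fun n => n * GI I n) p : ℝ) / (p : ℝ) ≤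
        Real.exp (-((rt (fun n => n * GI I n) p : ℝ) / (p : ℝ))) := by
      intro p _
      have := Real.add_one_le_exp (-((rt (fun n => n * GI I n) p : ℝ) / (p : ℝ)))
      linarith
    have h0 : ∀ p ∈ PS W z, 0 ≤ 1 - (rt (fun n => n * GI I n) p : ℝ) / (p : ℝ) := by
      intro p hp
      obtain ⟨h1, -, -⟩ := PS_mem W z p hp
      have hp0 : (0 : ℝ) < p := by exact_mod_cast h1.pos
      rw [sub_nonneg, div_le_one hp0]
      exact_mod_cast (hD.sys.root p h1).2.le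
    refine (prod_le_prod h0 hfac).trans ?_
    rw [← Real.exp_sum]
    apply Real.exp_le_exp.2
    rw [sum_neg_distrib]
    have h2 : S ≤ ∑ p ∈ PS W z, (rt (fun n => n * GI I n) p : ℝ) / (p : ℝ) + L := by
      have hsub : PR (z : ℝ) ⊆ (PS W z).filter (fun p => ¬ p ∣ MM I) ∪ (W * MM I).primeFactors := by
        intro p hp
        obtain ⟨h1, h2⟩ := (hPR p).1 hp
        rw [mem_union, mem_filter, Nat.mem_primeFactors]
        by_cases h3 : p ∣ W * MM I
        · right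
          exact ⟨h1, h3, by positivity⟩
        · left
          refine ⟨?_, fun h => h3 (h.mul_left _)⟩
          unfold PS
          rw [mem_filter, mem_Icc]
          exact ⟨⟨h1.one_lt.le, h2⟩, h1, fun h => h3 (h.mul_right _)⟩
      rw [hS, hL]
      refine (sum_le_sum_of_subset_of_nonneg hsub fun p _ _ => by positivity).trans ?_
      refine (sum_union_inter (s₁ := (PS W z).filter (fun p => ¬ p ∣ MM I)) (s₂ := (W * MM I).primeFactors)
        (f := fun p => (Tn I p : ℝ) / (p : ℝ))).le.trans' ?_ |>.trans ?_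
      · exact le_add_of_nonneg_right (sum_nonneg fun p _ => by positivity)
      · apply add_le_add_left
        refine le_trans (sum_le_sum fun p hp => ?_) (sum_le_sum_of_subset_of_nonneg (filter_subset _ _)
          fun p _ _ => by positivity)
        rw [mem_filter] at hp
        obtain ⟨h1, -, -⟩ := PS_mem W z p hp.1
        have h3 : (Tn I p : ℝ) ≤ rt (fun n => n * GI I n) p := by exact_mod_cast rt_ge I p h1 hp.2
        gcongr
    linarith [hs.1]

end Pool.Agent.V8H34.LF
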